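import Pool.Agent.Q267.AP.Stm

set_option autoImplicit false

/-! The Cartier operator and linear substitutions (lemma job AP-Cart of helper267). -/

namespace Pool.Agent.Q102.AP

open MvPolynomial Finset Pool.Agent.Q267.AP

variable {ι R : Type} [Fintype ι] [CommRing R]

lemma one_apply (i : ι) : one ι i = 1 := by simp [one]

lemma coeff_U (p : ℕ) (hp : 0 < p) (g : MvPolynomial ι R) (u : ι →₀ ℕ) :
    coeff u (U p g) = coeff (p • u + (p - 1) • one ι) g := by
  classical
  unfold U
  rw [coeff_sum]
  have h1 : ∀ v ∈ g.support.filter (fun v => ∀ i, v i % p = p - 1),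
      coeff u (monomial (v.mapRange (· / p) (Nat.zero_div p)) (coeff v g)) =
        if v = p • u + (p - 1) • one ι then coeff v g else 0 := by
    intro v hv
    rw [mem_filter] at hv
    rw [coeff_monomial]
    by_cases h : v = p • u + (p - 1) • one ι
    · rw [if_pos h, if_pos]
      ext i
      rw [Finsupp.mapRange_apply, h, Finsupp.add_apply, Finsupp.smul_apply, Finsupp.smul_apply, one_apply,
        smul_eq_mul, smul_eq_mul, mul_one]
      rw [Nat.mul_add_div hp, Nat.div_eq_of_lt (by omega), add_zero]
    · rw [if_neg h, if_neg]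
      intro h2
      apply h
      ext i
      have h3 : v i / p = u i := by rw [← h2, Finsupp.mapRange_apply]
      rw [Finsupp.add_apply, Finsupp.smul_apply, Finsupp.smul_apply, one_apply,
        smul_eq_mul, smul_eq_mul, mul_one, ← h3, ← hv.2 i]
      exact (Nat.div_add_mod _ _).symm
  rw [sum_congr rfl h1, sum_ite_eq']
  split_ifs with h
  · rfl
  · rw [mem_filter, not_and] at h
    by_contra hcon
    refine h (mem_support_iff.2 (Ne.symm hcon)) fun i => ?_
    rw [Finsupp.add_apply, Finsupp.smul_apply, Finsupp.smul_apply, one_apply,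
        smul_eq_mul, smul_eq_mul, mul_one, Nat.mul_add_mod, Nat.mod_eq_of_lt (by omega)]

lemma U_add (p : ℕ) (hp : 0 < p) (g h : MvPolynomial ι R) : U p (g + h) = U p g + U p h := by
  ext u
  rw [coeff_add, coeff_U p hp, coeff_U p hp, coeff_U p hp, coeff_add]

lemma U_zero (p : ℕ) (hp : 0 < p) : U p (0 : MvPolynomial ι R) = 0 := by
  ext u
  rw [coeff_U p hp, coeff_zero, coeff_zero]

lemma U_C_mul (p : ℕ) (hp : 0 < p) (a : R) (g : MvPolynomial ι R) : U p (C a * g) = C a * U p g := by
  ext u
  rw [coeff_U p hp, coeff_C_mul, coeff_C_mul, coeff_U p hp]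

lemma U_monomial_mul (p : ℕ) (hp : 0 < p) (w : ι →₀ ℕ) (a : R) (g : MvPolynomial ι R) :
    U p (monomial (p • w) a * g) = monomial w a * U p g := by
  classical
  ext u
  rw [coeff_U p hp, coeff_monomial_mul', coeff_monomial_mul']
  have h : p • w ≤ p • u + (p - 1) • one ι ↔ w ≤ u := by
    constructor
    · intro h i
      have h2 := h i
      rw [Finsupp.add_apply, Finsupp.smul_apply, Finsupp.smul_apply, Finsupp.smul_apply, one_apply,
        smul_eq_mul, smul_eq_mul, smul_eq_mul, mul_one] at h2
      by_contra hcon
      push Not at hcon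
      have : p * (u i + 1) ≤ p * w i := Nat.mul_le_mul_left p hcon
      rw [mul_add] at this
      omega
    · intro h i
      have h2 := h i
      rw [Finsupp.add_apply, Finsupp.smul_apply, Finsupp.smul_apply, smul_eq_mul, smul_eq_mul]
      exact (Nat.mul_le_mul_left p h2).trans (Nat.le_add_right _ _)
  by_cases hw : w ≤ u
  · rw [if_pos (h.2 hw), if_pos hw, coeff_U p hp]
    congr 2
    ext i
    have h2 := hw i
    rw [Finsupp.tsub_apply, Finsupp.add_apply, Finsupp.add_apply, Finsupp.smul_apply, Finsupp.smul_apply,
      Finsupp.smul_apply, Finsupp.smul_apply, Finsupp.tsub_apply, smul_eq_mul, smul_eq_mul, smul_eq_mul, smul_eq_mul]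
    rw [Nat.mul_sub]
    have : p * w i ≤ p * u i := Nat.mul_le_mul_left p h2
    omega
  · rw [if_neg (fun hh => hw (h.1 hh)), if_neg hw]

lemma U_expand_mul (p : ℕ) (hp : 0 < p) (L g : MvPolynomial ι R) : U p (expand p L * g) = L * U p g := by
  induction L using MvPolynomial.induction_on' with
  | monomial w a => rw [expand_monomial, U_monomial_mul p hp]
  | add L L' h h' => rw [map_add, add_mul, U_add p hp, h, h', add_mul]

lemma U_low (p : ℕ) (hp : 0 < p) (g : MvPolynomial ι R) (h : g.totalDegree ≤ (p - 1) * Fintype.card ι) :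
    U p g = C (coeff ((p - 1) • one ι) g) := by
  classical
  ext u
  rw [coeff_U p hp, coeff_C]
  split_ifs with hu
  · rw [← hu, smul_zero, zero_add]
  · apply coeff_eq_zero_of_totalDegree_lt
    refine lt_of_le_of_lt h ?_
    have h1 : ∑ i ∈ (p • u + (p - 1) • one ι).support, (p • u + (p - 1) • one ι) i =
        ∑ i, (p • u + (p - 1) • one ι) i := by
      apply sum_subset (subset_univ _)
      intro i _ hi
      rwa [Finsupp.notMem_support_iff] at hi
    rw [h1]
    simp only [Finsupp.add_apply, Finsupp.smul_apply, one_apply, smul_eq_mul, mul_one]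
    rw [sum_add_distrib, sum_const, card_univ, smul_eq_mul, mul_comm (Fintype.card ι)]
    have h2 : 0 < ∑ i, p * u i := by
      obtain ⟨i, hi⟩ := Finsupp.ne_iff.1 (Ne.symm hu)
      rw [Finsupp.zero_apply] at hi
      exact lt_of_lt_of_le (Nat.mul_pos hp (Nat.pos_of_ne_zero hi)) (single_le_sum (f := fun i => p * u i)
        (fun _ _ => Nat.zero_le _) (mem_univ i))
    omega

/-! linear substitutions -/

lemma lin_X (M : Matrix ι ι R) (i : ι) : lin M (X i) = ∑ j, C (M i j) * X j := by
  unfold lin
  rw [coe_eval₂Hom, eval₂_X]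

lemma lin_C (M : Matrix ι ι R) (a : R) : lin M (C a) = C a := by
  unfold lin
  rw [coe_eval₂Hom, eval₂_C]

lemma lin_mul (M M' : Matrix ι ι R) (g : MvPolynomial ι R) : lin (M * M') g = lin M' (lin M g) := by
  have h : lin (M * M') = (lin M').comp (lin M) := by
    apply MvPolynomial.ringHom_ext
    · intro a
      rw [RingHom.comp_apply, lin_C, lin_C, lin_C]
    · intro i
      rw [RingHom.comp_apply, lin_X, lin_X, map_sum]
      simp only [map_mul, lin_C, lin_X, Matrix.mul_apply, map_sum, mul_sum, sum_mul]
      rw [sum_comm]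
      refine sum_congr rfl fun j _ => sum_congr rfl fun l _ => by ring
  rw [h, RingHom.comp_apply]

lemma monomial_eq' (v : ι →₀ ℕ) (a : R) : monomial v a = C a * ∏ i, X i ^ v i := by
  rw [monomial_eq, Finsupp.prod_fintype _ _ fun i => pow_zero _]

lemma lin_monomial (M : Matrix ι ι R) (v : ι →₀ ℕ) (a : R) :
    lin M (monomial v a) = C a * ∏ i, (∑ j, C (M i j) * X j) ^ v i := by
  rw [monomial_eq', map_mul, lin_C, map_prod]
  simp only [map_pow, lin_X]

lemma deg_form (M : Matrix ι ι R) (i : ι) : (∑ j, C (M i j) * X j : MvPolynomial ι R).totalDegree ≤ 1 := by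
  refine (totalDegree_finsetSum _ _).trans (Finset.sup_le fun j _ => ?_)
  refine (totalDegree_mul _ _).trans ?_
  rw [totalDegree_C, zero_add]
  by_cases h : Nontrivial R
  · rw [totalDegree_X]
  · rw [not_nontrivial_iff_subsingleton] at h
    have : (X j : MvPolynomial ι R) = 0 := Subsingleton.elim _ _
    rw [this, totalDegree_zero]
    exact Nat.zero_le _

lemma deg_lin (M : Matrix ι ι R) (v : ι →₀ ℕ) (a : R) : (lin M (monomial v a)).totalDegree ≤ ∑ i, v i := by
  rw [lin_monomial]
  refine (totalDegree_mul _ _).trans ?_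
  rw [totalDegree_C, zero_add]
  refine (totalDegree_finsetProd _ _).trans (sum_le_sum fun i _ => ?_)
  refine (totalDegree_pow _ _).trans ?_
  exact (Nat.mul_le_mul_left _ (deg_form M i)).trans (by rw [mul_one])

section main
variable {k : Type} [DecidableEq ι] [Field k] [Algebra k R]

/-- the matrix over `R` -/
abbrev mp (R : Type) [CommRing R] [Algebra k R] (M : Matrix ι ι k) : Matrix ι ι R := M.map (algebraMap k R)

omit [DecidableEq ι] in
lemma pow_form (p : ℕ) [Fact p.Prime] [CharP k p] [Nontrivial R] (M : Matrix ι ι k) (i : ι) :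
    (∑ j, C (mp R M i j) * X j : MvPolynomial ι R) ^ p =
      expand p (∑ j, C (mp R (M.map (· ^ p)) i j) * X j) := by
  have : CharP R p := charP_of_injective_algebraMap (algebraMap k R).injective p
  rw [sum_pow_char, map_sum]
  refine sum_congr rfl fun j _ => ?_
  rw [mul_pow, map_mul, expand_C, expand_X, ← C_pow]
  simp only [Matrix.map_apply, map_pow]

/-- reduction to one monomial -/
lemma red (p : ℕ) [hp : Fact p.Prime] [CharP k p] [Nontrivial R] (M : Matrix ι ι k)
    (hM : coeff ((p - 1) • one ι) (lin (mp R M) (monomial ((p - 1) • one ι) 1)) = algebraMap k R (M.det ^ (p - 1)))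
    (g : MvPolynomial ι R) :
    U p (lin (mp R M) g) = C (algebraMap k R (M.det ^ (p - 1))) * lin (mp R (M.map (· ^ p))) (U p g) := by
  have hp0 : 0 < p := hp.out.pos
  induction g using MvPolynomial.induction_on' with
  | add g h hg hh => rw [map_add, U_add p hp0, hg, hh, U_add p hp0, map_add, mul_add]
  | monomial v a =>
    obtain ⟨u, hu⟩ : ∃ u : ι →₀ ℕ, u = v.mapRange (· / p) (Nat.zero_div p) := ⟨_, rfl⟩
    obtain ⟨r, hr⟩ : ∃ r : ι →₀ ℕ, r = v.mapRange (· % p) (Nat.zero_mod p) := ⟨_, rfl⟩
    have hv : v = p • u + r := by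
      ext i
      rw [hu, hr, Finsupp.add_apply, Finsupp.smul_apply, Finsupp.mapRange_apply, Finsupp.mapRange_apply, smul_eq_mul]
      exact (Nat.div_add_mod _ _).symm
    have hrp : ∀ i, r i ≤ p - 1 := by
      intro i
      rw [hr, Finsupp.mapRange_apply]
      have := Nat.mod_lt (v i) hp0
      omega
    have hmon : (monomial v a : MvPolynomial ι R) = C a * (monomial (p • u) 1 * monomial r 1) := by
      rw [monomial_mul, C_mul_monomial, hv]
      simp
    -- the substituted monomial
    have hsub : lin (mp R M) (monomial (p • u) 1) = expand p (lin (mp R (M.map (· ^ p))) (monomial u (1:R))) := by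
      rw [lin_monomial, lin_monomial, map_mul, expand_C, map_prod]
      congr 1
      refine prod_congr rfl fun i _ => ?_
      rw [map_pow, ← pow_form, Finsupp.smul_apply, smul_eq_mul, pow_mul]
    rw [hmon, map_mul, lin_C, U_C_mul p hp0, map_mul, hsub, U_expand_mul p hp0, U_C_mul p hp0,
      U_monomial_mul p hp0, map_mul, lin_C, map_mul]
    -- the small monomial
    have hdeg : (lin (mp R M) (monomial r (1:R))).totalDegree ≤ ∑ i, r i := deg_lin _ _ _
    have hsum : ∑ i, r i ≤ (p - 1) * Fintype.card ι := by
      calc ∑ i, r i ≤ ∑ _i : ι, (p - 1) := sum_le_sum fun i _ => hrp i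
        _ = _ := by rw [sum_const, card_univ, smul_eq_mul, mul_comm]
    have hdeg2 : (monomial r (1:R)).totalDegree ≤ (p - 1) * Fintype.card ι := by
      refine (totalDegree_monomial_le _ _).trans ?_
      rw [Finsupp.sum_fintype _ _ fun i => rfl]
      exact hsum
    rw [U_low p hp0 _ (hdeg.trans hsum), U_low p hp0 _ hdeg2, lin_C]
    by_cases h : r = (p - 1) • one ι
    · rw [h, hM, coeff_monomial, if_pos rfl]
      rw [C_1]
      ring
    · have h1 : ∑ i, r i < (p - 1) * Fintype.card ι := by
        refine lt_of_le_of_ne hsum fun heq => h ?_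
        ext i
        rw [Finsupp.smul_apply, one_apply, smul_eq_mul, mul_one]
        by_contra hne
        have hlt : r i < p - 1 := lt_of_le_of_ne (hrp i) hne
        have : ∑ i, r i < ∑ _i : ι, (p - 1) := sum_lt_sum (fun i _ => hrp i) ⟨i, mem_univ _, hlt⟩
        rw [sum_const, card_univ, smul_eq_mul, mul_comm (Fintype.card ι)] at this
        omega
      have h2 : coeff ((p - 1) • one ι) (lin (mp R M) (monomial r (1:R))) = 0 := by
        apply coeff_eq_zero_of_totalDegree_lt
        refine lt_of_le_of_lt hdeg ?_
        have h3 : ∑ i ∈ ((p - 1) • one ι : ι →₀ ℕ).support, ((p - 1) • one ι : ι →₀ ℕ) i =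
            ∑ i, ((p - 1) • one ι : ι →₀ ℕ) i := by
          apply sum_subset (subset_univ _)
          intro i _ hi
          rwa [Finsupp.notMem_support_iff] at hi
        rw [h3]
        simp only [Finsupp.smul_apply, one_apply, smul_eq_mul, mul_one]
        rw [sum_const, card_univ, smul_eq_mul, mul_comm (Fintype.card ι)]
        exact h1
      rw [h2, coeff_monomial, if_neg h]
      simp

end main

theorem cart : S_Cart := by
  intro ι k R _ _ _ _ _ p hp _ M g
  by_cases hR : Nontrivial R
  swap
  · rw [not_nontrivial_iff_subsingleton] at hR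
    exact Subsingleton.elim _ _
  have hp0 : 0 < p := hp.out.pos
  have key : ∀ g : MvPolynomial ι R, U p (lin (mp R M) g) =
      C (algebraMap k R (M.det ^ (p - 1))) * lin (mp R (M.map (· ^ p))) (U p g) := by
    refine Matrix.diagonal_transvection_induction (fun M => ∀ g : MvPolynomial ι R, U p (lin (mp R M) g) =
      C (algebraMap k R (M.det ^ (p - 1))) * lin (mp R (M.map (· ^ p))) (U p g)) M ?_ ?_ ?_
    · intro D _
      apply red
      rw [lin_monomial, Matrix.det_diagonal]
      have h1 : ∀ i, (∑ j, C (mp R (Matrix.diagonal D) i j) * X j : MvPolynomial ι R) =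
          C (algebraMap k R (D i)) * X i := by
        intro i
        rw [sum_eq_single i]
        · simp
        · intro j _ hj
          simp [Matrix.diagonal_apply_ne _ (Ne.symm hj)]
        · intro h
          exact absurd (mem_univ i) h
      simp only [h1, Finsupp.smul_apply, one_apply, smul_eq_mul, mul_one, mul_pow, prod_mul_distrib]
      have h2 : (∏ i, (X i : MvPolynomial ι R) ^ (p - 1)) = monomial ((p - 1) • one ι) 1 := by
        rw [monomial_eq', C_1, one_mul]
        refine prod_congr rfl fun i _ => ?_
        rw [Finsupp.smul_apply, one_apply, smul_eq_mul, mul_one]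
      rw [h2, C_1, one_mul]
      simp only [← C_pow, ← map_prod]
      rw [coeff_C_mul, coeff_monomial, if_pos rfl, mul_one]
      simp only [map_pow, map_prod, prod_pow]
    · intro t
      apply red
      rw [lin_monomial, t.det, one_pow, map_one, map_one, one_mul]
      have hij := t.hij
      have h1 : ∀ i, i ≠ t.i → (∑ j, C (mp R t.toMatrix i j) * X j : MvPolynomial ι R) = X i := by
        intro i hi
        rw [sum_eq_single i]
        · simp [Matrix.TransvectionStruct.toMatrix, Matrix.transvection, Ne.symm hi]
        · intro j _ hj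
          simp [Matrix.TransvectionStruct.toMatrix, Matrix.transvection, Ne.symm hi, Ne.symm hj]
        · intro h
          exact absurd (mem_univ i) h
      have h2 : (∑ j, C (mp R t.toMatrix t.i j) * X j : MvPolynomial ι R) =
          X t.i + C (algebraMap k R t.c) * X t.j := by
        have h3 : ∀ j, (C (mp R t.toMatrix t.i j) * X j : MvPolynomial ι R) =
            (if j = t.i then X t.i else 0) + (if j = t.j then C (algebraMap k R t.c) * X t.j else 0) := by
          intro j
          simp only [mp, Matrix.map_apply, Matrix.TransvectionStruct.toMatrix, Matrix.transvection, Matrix.add_apply,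
            Matrix.one_apply, Matrix.single_apply, map_add]
          by_cases hj1 : j = t.i
          · subst hj1
            rw [if_pos rfl, if_pos rfl, if_neg (fun h => hij h.2.symm), if_neg hij]
            simp
          · by_cases hj2 : j = t.j
            · subst hj2
              rw [if_neg (Ne.symm hj1), if_pos (by simp), if_neg hj1, if_pos rfl]
              simp
            · rw [if_neg (Ne.symm hj1), if_neg (fun h => hj2 h.2.symm), if_neg hj1, if_neg hj2]
              simp
        rw [sum_congr rfl fun j _ => h3 j, sum_add_distrib, sum_ite_eq', sum_ite_eq', if_pos (mem_univ _),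
          if_pos (mem_univ _)]
      obtain ⟨h, hh⟩ : ∃ h : MvPolynomial ι R, (X t.i + C (algebraMap k R t.c) * X t.j) ^ (p - 1) =
          X t.i ^ (p - 1) + C (algebraMap k R t.c) * X t.j * h := by
        obtain ⟨h, hh⟩ := sub_dvd_pow_sub_pow (X t.i + C (algebraMap k R t.c) * X t.j) (X t.i : MvPolynomial ι R) (p - 1)
        refine ⟨h, ?_⟩
        rw [add_sub_cancel_left] at hh
        rw [← hh]
        ring
      have h4 : ∀ i, (∑ j, C (mp R t.toMatrix i j) * X j : MvPolynomial ι R) ^ ((p - 1) • one ι) i =
          (∑ j, C (mp R t.toMatrix i j) * X j : MvPolynomial ι R) ^ (p - 1) := by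
        intro i
        rw [Finsupp.smul_apply, one_apply, smul_eq_mul, mul_one]
      simp only [h4]
      rw [← mul_prod_erase univ _ (mem_univ t.i), h2, hh, add_mul]
      have h5 : ∏ i ∈ univ.erase t.i, (∑ j, C (mp R t.toMatrix i j) * X j : MvPolynomial ι R) ^ (p - 1) =
          ∏ i ∈ univ.erase t.i, X i ^ (p - 1) := by
        refine prod_congr rfl fun i hi => ?_
        rw [h1 i (mem_erase.1 hi).1]
      rw [h5, coeff_add]
      have h6 : (X t.i : MvPolynomial ι R) ^ (p - 1) * ∏ i ∈ univ.erase t.i, X i ^ (p - 1) =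
          monomial ((p - 1) • one ι) 1 := by
        rw [mul_prod_erase univ (fun i => (X i : MvPolynomial ι R) ^ (p - 1)) (mem_univ t.i), monomial_eq', C_1,
          one_mul]
        refine prod_congr rfl fun i _ => ?_
        rw [Finsupp.smul_apply, one_apply, smul_eq_mul, mul_one]
      rw [h6, coeff_monomial, if_pos rfl]
      have h7 : C (algebraMap k R t.c) * X t.j * h * ∏ i ∈ univ.erase t.i, (X i : MvPolynomial ι R) ^ (p - 1) =
          monomial (Finsupp.single t.j p) 1 * (C (algebraMap k R t.c) * h *
            ∏ i ∈ (univ.erase t.i).erase t.j, X i ^ (p - 1)) := by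
        rw [← mul_prod_erase (univ.erase t.i) _ (mem_erase.2 ⟨Ne.symm hij, mem_univ t.j⟩)]
        have h8 : (monomial (Finsupp.single t.j p) 1 : MvPolynomial ι R) = X t.j * X t.j ^ (p - 1) := by
          rw [← pow_succ', Nat.sub_add_cancel hp0, X_pow_eq_monomial]
        rw [h8]
        ring
      rw [h7, coeff_monomial_mul', if_neg, add_zero]
      intro hle
      have := hle t.j
      rw [Finsupp.single_eq_same, Finsupp.smul_apply, one_apply, smul_eq_mul, mul_one] at this
      omega
    · intro A B hA hB g
      have h1 : mp R (A * B) = mp R A * mp R B := Matrix.map_mul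
      have h2 : (A * B).map (· ^ p) = A.map (· ^ p) * B.map (· ^ p) := by
        have h3 : ∀ N : Matrix ι ι k, N.map (· ^ p) = N.map (frobenius k p) := fun N => rfl
        rw [h3, h3, h3, Matrix.map_mul]
      have h3 : mp R (A.map (· ^ p) * B.map (· ^ p)) = mp R (A.map (· ^ p)) * mp R (B.map (· ^ p)) := Matrix.map_mul
      rw [h1, h2, h3, lin_mul, lin_mul, hB, hA, map_mul, lin_C, Matrix.det_mul, mul_pow, map_mul, C_mul]
      ring
  exact key g

end Pool.Agent.Q102.AP
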