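import Pool.Agent.Q102.AP.Cart

set_option autoImplicit false

/-! Charts at the vertices of a hyperplane arrangement (lemma job AP-Charts of helper267). -/

namespace Pool.Agent.Q102.AP

open MvPolynomial Finset Pool.Agent.Q267.AP

/-- the partial sums -/
def ps {n e : ℕ} (w : Exps n e) (i : Fin (n + 1)) : ℕ := ∑ t ∈ univ.filter (· < i), (w.1 t : ℕ)

lemma ps_lt {n e : ℕ} (w : Exps n e) (i : Fin (n + 1)) : ps w i < e := by
  have h1 : ps w i + (w.1 i : ℕ) ≤ ∑ t, (w.1 t : ℕ) := by
    unfold ps
    have h2 : ∑ t ∈ insert i (univ.filter (· < i)), (w.1 t : ℕ) = (w.1 i : ℕ) + ∑ t ∈ univ.filter (· < i), (w.1 t : ℕ) :=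
      sum_insert (by simp)
    rw [add_comm, ← h2]
    exact sum_le_sum_of_subset (subset_univ _)
  rw [w.2.2] at h1
  have := w.2.1 i
  omega

lemma ps_mono {n e : ℕ} (w : Exps n e) {i j : Fin (n + 1)} (h : i < j) : ps w i < ps w j := by
  unfold ps
  have h1 : ∑ t ∈ insert i (univ.filter (· < i)), (w.1 t : ℕ) = (w.1 i : ℕ) + ∑ t ∈ univ.filter (· < i), (w.1 t : ℕ) :=
      sum_insert (by simp)
  have h2 : ∑ t ∈ insert i (univ.filter (· < i)), (w.1 t : ℕ) ≤ ∑ t ∈ univ.filter (· < j), (w.1 t : ℕ) := by
    apply sum_le_sum_of_subset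
    intro t ht
    rw [mem_insert, mem_filter] at ht
    rw [mem_filter]
    rcases ht with rfl | ht
    · exact ⟨mem_univ _, h⟩
    · exact ⟨mem_univ _, ht.2.trans h⟩
  have := w.2.1 i
  omega

lemma ps_inj {n e : ℕ} (w w' : Exps n e) (h : ∀ i, ps w i = ps w' i) : w = w' := by
  have h1 : ∀ i, ∑ t ∈ insert i (univ.filter (· < i)), (w.1 t : ℕ) =
      ∑ t ∈ insert i (univ.filter (· < i)), (w'.1 t : ℕ) := by
    intro i
    by_cases hi : i = Fin.last n
    · have h2 : insert i (univ.filter (· < i)) = univ := by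
        ext t
        rw [mem_insert, mem_filter, hi]
        simp only [mem_univ, true_and, iff_true]
        exact (Fin.le_last t).eq_or_lt
      rw [h2, w.2.2, w'.2.2]
    · obtain ⟨i', hi'⟩ : ∃ i' : Fin (n + 1), (i' : ℕ) = i + 1 := by
        have : (i : ℕ) ≠ n := fun hh => hi (Fin.ext hh)
        have h3 := i.2
        exact ⟨⟨i + 1, by omega⟩, rfl⟩
      have h2 : insert i (univ.filter (· < i)) = univ.filter (· < i') := by
        ext t
        rw [mem_insert, mem_filter, mem_filter]
        simp only [mem_univ, true_and, Fin.lt_def, Fin.ext_iff]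
        omega
      rw [h2]
      exact h i'
  apply Subtype.ext
  funext i
  apply Fin.ext
  have h2 := h1 i
  rw [sum_insert (by simp), sum_insert (by simp)] at h2
  have h3 := h i
  unfold ps at h3
  omega

/-- the vertices -/
def sg {n e : ℕ} (w : Exps n e) (i : Fin (n + 1)) : Fin e := ⟨ps w i, ps_lt w i⟩

lemma sg_mono {n e : ℕ} (w : Exps n e) : StrictMono (sg w) := fun _ _ h => ps_mono w h

lemma sg_zero {n e : ℕ} (w w' : Exps n e) : sg w 0 = sg w' 0 := by
  apply Fin.ext
  show ps w 0 = ps w' 0
  unfold ps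
  have : univ.filter (fun t : Fin (n + 1) => t < 0) = ∅ := by
    apply filter_eq_empty_iff.2
    intro t _
    exact not_lt.2 (Fin.zero_le t)
  rw [this, sum_empty, sum_empty]

lemma sg_sep {n e : ℕ} (w w' : Exps n e) (h : ∀ i, i ≠ 0 → sg w' i ∈ Set.range (sg w)) : w = w' := by
  have h1 : ∀ i, sg w' i ∈ Set.range (sg w) := by
    intro i
    by_cases hi : i = 0
    · rw [hi]
      exact ⟨0, sg_zero w w'⟩
    · exact h i hi
  have h2 : Set.range (sg w') ⊆ Set.range (sg w) := by
    rintro _ ⟨i, rfl⟩
    exact h1 i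
  have h3 : univ.image (sg w') = univ.image (sg w) := by
    apply eq_of_subset_of_card_le
    · intro x hx
      rw [mem_image] at hx ⊢
      obtain ⟨i, _, rfl⟩ := hx
      obtain ⟨j, hj⟩ := h1 i
      exact ⟨j, mem_univ _, hj⟩
    · rw [card_image_of_injective _ (sg_mono w).injective, card_image_of_injective _ (sg_mono w').injective]
  have h4 : Set.range (sg w) = Set.range (sg w') := by
    have := congrArg (fun s : Finset (Fin e) => (s : Set (Fin e))) h3
    simp only [coe_image, coe_univ, Set.image_univ] at this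
    exact this.symm
  have h5 := (StrictMono.range_inj (sg_mono w) (sg_mono w')).1 h4
  apply ps_inj
  intro i
  have := congrFun h5 i
  exact congrArg Fin.val this

section forms
variable {n e : ℕ} {A : Type} [CommRing A]

lemma lin_lf (M : Matrix (Fin (n + 1)) (Fin (n + 1)) A) (l : Fin (n + 1) → A) :
    lin M (lf l) = lf (Matrix.vecMul l M) := by
  unfold lf
  rw [map_sum]
  simp only [map_mul, lin_C, lin_X, Matrix.vecMul, dotProduct, map_sum, mul_sum, sum_mul]
  rw [sum_comm]
  refine sum_congr rfl fun j _ => sum_congr rfl fun i _ => by ring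

lemma lf_single (i : Fin (n + 1)) : lf (fun j => if j = i then (1:A) else 0) = X i := by
  unfold lf
  rw [sum_eq_single i]
  · simp
  · intro j _ hj
    simp [hj]
  · intro h
    exact absurd (mem_univ i) h

lemma eval_lf (l P : Fin (n + 1) → A) : eval P (lf l) = dotProduct l P := by
  unfold lf
  rw [map_sum]
  simp only [map_mul, eval_C, eval_X]
  rfl

lemma hom_lf (l : Fin (n + 1) → A) : (lf l).IsHomogeneous 1 := by
  unfold lf
  exact IsHomogeneous.sum _ _ _ fun i _ => isHomogeneous_C_mul_X _ _

lemma coeff_lf_prod {ι : Type} (s : Finset ι) (l : ι → Fin (n + 1) → A) :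
    coeff (Finsupp.single 0 s.card) (∏ i ∈ s, lf (l i)) = ∏ i ∈ s, l i 0 := by
  classical
  induction s using Finset.induction_on with
  | empty => simp
  | insert i s hi ih =>
    rw [prod_insert hi, prod_insert hi, card_insert_of_notMem hi]
    unfold lf at ih ⊢
    rw [sum_mul, coeff_sum, sum_eq_single 0]
    · rw [mul_assoc, coeff_C_mul, ← ih]
      congr 1
      have : (Finsupp.single 0 (s.card + 1) : Fin (n + 1) →₀ ℕ) = Finsupp.single 0 1 + Finsupp.single 0 s.card := by
        rw [← Finsupp.single_add, add_comm s.card 1]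
      rw [this, coeff_X_mul]
    · intro j _ hj
      rw [mul_assoc, coeff_C_mul, coeff_X_mul', if_neg, mul_zero]
      rw [Finsupp.mem_support_iff, Finsupp.single_eq_of_ne hj]
      simp
    · intro h
      exact absurd (mem_univ _) h

lemma wexp_apply (w : Exps n e) (i : Fin (n + 1)) : wexp n e w i = (w.1 i : ℕ) := by
  simp [wexp]

lemma wexp_inj : Function.Injective fun w : Exps n e => wexp n e w - one (Fin (n + 1)) := by
  intro w w' h
  apply Subtype.ext
  funext i
  apply Fin.ext
  have h1 := DFunLike.congr_fun h i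
  simp only [Finsupp.tsub_apply, wexp_apply, one_apply] at h1
  have h2 := w.2.1 i
  have h3 := w'.2.1 i
  omega

lemma eval_exp (hne : n + 1 ≤ e) (G : MvPolynomial (Fin (n + 1)) A) (hG : G.IsHomogeneous (e - (n + 1)))
    (P : Fin (n + 1) → A) : eval P G = ∑ w : Exps n e, coeff (wexp n e w - one (Fin (n + 1))) G *
      eval P (monomial (wexp n e w - one (Fin (n + 1))) (1 : A)) := by
  classical
  have h1 : eval P G = ∑ u ∈ G.support, coeff u G * eval P (monomial u (1:A)) := by
    conv_lhs => rw [G.as_sum]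
    rw [map_sum]
    refine sum_congr rfl fun u _ => ?_
    rw [← mul_one (coeff u G), ← C_mul_monomial, map_mul, eval_C, mul_one]
  have h2 : ∑ w : Exps n e, coeff (wexp n e w - one (Fin (n + 1))) G *
      eval P (monomial (wexp n e w - one (Fin (n + 1))) (1 : A)) =
      ∑ u ∈ univ.image (fun w : Exps n e => wexp n e w - one (Fin (n + 1))), coeff u G * eval P (monomial u (1:A)) := by
    rw [sum_image fun a _ b _ h => wexp_inj h]
  rw [h1, h2]
  apply sum_subset
  · intro u hu
    have h3 : ∑ i, u i = e - (n + 1) := by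
      by_contra hcon
      rw [← Finsupp.degree_eq_sum] at hcon
      exact (mem_support_iff.1 hu) (hG.coeff_eq_zero hcon)
    have h4 : ∀ i, u i ≤ e - (n + 1) := fun i => by
      rw [← h3]
      exact single_le_sum (fun _ _ => Nat.zero_le _) (mem_univ i)
    rw [mem_image]
    refine ⟨⟨fun i => ⟨u i + 1, by have := h4 i; omega⟩, fun i => Nat.succ_pos _, ?_⟩, mem_univ _, ?_⟩
    · show ∑ i, (u i + 1) = e
      rw [sum_add_distrib, h3, sum_const, card_univ, Fintype.card_fin, smul_eq_mul, mul_one]
      omega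
    · ext i
      rw [Finsupp.tsub_apply, wexp_apply, one_apply]
      show u i + 1 - 1 = u i
      omega
  · intro u _ hu
    rw [notMem_support_iff.1 hu, zero_mul]

end forms

theorem charts : S_Charts := by
  classical
  intro n e A _ _ l hl
  obtain ⟨L, hL⟩ : ∃ L : Exps n e → Matrix (Fin (n + 1)) (Fin (n + 1)) A,
      L = fun w => Matrix.of fun i j => l (sg w i) j := ⟨_, rfl⟩
  have hLdet : ∀ w, IsUnit (L w).det := fun w => by rw [hL]; exact hl _ (sg_mono w).injective
  have hLM : ∀ w, L w * (L w)⁻¹ = 1 := fun w => Matrix.mul_nonsing_inv _ (hLdet w)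
  have hMdet : ∀ w, IsUnit ((L w)⁻¹).det := fun w => by
    rw [Matrix.isUnit_nonsing_inv_det_iff]
    exact hLdet w
  have hcard : ∀ w : Exps n e, n + 1 ≤ e := by
    intro w
    have h1 : ∑ i : Fin (n + 1), 1 ≤ ∑ i, (w.1 i : ℕ) := sum_le_sum fun i _ => w.2.1 i
    rw [w.2.2] at h1
    simpa using h1
  have himc : ∀ w : Exps n e, ((univ.image (sg w))ᶜ).card = e - (n + 1) := by
    intro w
    rw [card_compl, card_image_of_injective _ (sg_mono w).injective, card_univ, Fintype.card_fin, Fintype.card_fin]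
  -- rows
  have hrow : ∀ w i, Matrix.vecMul (l (sg w i)) (L w)⁻¹ = fun j => if j = i then (1:A) else 0 := by
    intro w i
    have h1 : Matrix.vecMul (l (sg w i)) (L w)⁻¹ = (L w * (L w)⁻¹) i := by
      rw [hL]
      rfl
    rw [h1, hLM]
    funext j
    rw [Matrix.one_apply]
    simp only [eq_comm]
  -- other forms do not vanish at the vertex
  have hunit : ∀ w, ∀ i, i ∉ univ.image (sg w) → IsUnit (Matrix.vecMul (l i) (L w)⁻¹ 0) := by
    intro w i hi
    have hinj : Function.Injective (Function.update (sg w) 0 i) := by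
      intro a b hab
      by_cases ha : a = 0 <;> by_cases hb : b = 0
      · rw [ha, hb]
      · subst ha
        rw [Function.update_self, Function.update_of_ne hb] at hab
        exact absurd (mem_image.2 ⟨b, mem_univ _, hab.symm⟩) hi
      · subst hb
        rw [Function.update_self, Function.update_of_ne ha] at hab
        exact absurd (mem_image.2 ⟨a, mem_univ _, hab⟩) hi
      · rw [Function.update_of_ne ha, Function.update_of_ne hb] at hab
        exact (sg_mono w).injective hab
    have h1 := hl _ hinj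
    have h2 : (Matrix.of fun a b => l (Function.update (sg w) 0 i a) b) * (L w)⁻¹ =
        Matrix.updateRow 1 0 (Matrix.vecMul (l i) (L w)⁻¹) := by
      ext a b
      by_cases ha : a = 0
      · subst ha
        rw [Matrix.updateRow_self]
        rw [Matrix.mul_apply]
        simp only [Matrix.of_apply, Function.update_self]
        rfl
      · rw [Matrix.updateRow_ne ha]
        have h3 := congrFun (hrow w a) b
        rw [Matrix.mul_apply]
        simp only [Matrix.of_apply, Function.update_of_ne ha]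
        have h4 : ∑ j, l (sg w a) j * (L w)⁻¹ j b = Matrix.vecMul (l (sg w a)) (L w)⁻¹ b := rfl
        rw [h4, h3, Matrix.one_apply]
        simp only [eq_comm]
    have h3 : ((Matrix.of fun a b => l (Function.update (sg w) 0 i a) b) * (L w)⁻¹).det =
        Matrix.vecMul (l i) (L w)⁻¹ 0 := by
      rw [h2]
      have h4 := Matrix.cramer_transpose_apply (1 : Matrix (Fin (n + 1)) (Fin (n + 1)) A)
        (Matrix.vecMul (l i) (L w)⁻¹) 0
      rw [← h4, Matrix.transpose_one, Matrix.cramer_one]
      rfl
    rw [← h3, Matrix.det_mul]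
    exact h1.mul (hMdet w)
  refine ⟨fun w => (L w)⁻¹, fun w => X 0 * ∏ i ∈ (univ.image (sg w))ᶜ, lf (Matrix.vecMul (l i) (L w)⁻¹),
    fun w => ⟨hMdet w, ?_, ?_, ?_⟩, ?_⟩
  · rw [map_prod, ← prod_mul_prod_compl (univ.image (sg w)), prod_image fun a _ b _ h => (sg_mono w).injective h]
    have h1 : ∀ i, lin (L w)⁻¹ (lf (l (sg w i))) = X i := fun i => by
      rw [lin_lf, hrow, lf_single]
    have h2 : ∏ i, lin (L w)⁻¹ (lf (l (sg w i))) = X 0 * ∏ i ∈ univ.erase 0, X i := by
      rw [mul_prod_erase univ (fun i => (X i : MvPolynomial (Fin (n + 1)) A)) (mem_univ 0)]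
      exact prod_congr rfl fun i _ => h1 i
    rw [h2]
    simp only [lin_lf]
    ring
  · intro u hu
    have h1 : (X 0 * ∏ i ∈ (univ.image (sg w))ᶜ, lf (Matrix.vecMul (l i) (L w)⁻¹) :
        MvPolynomial (Fin (n + 1)) A).IsHomogeneous (1 + ∑ i ∈ (univ.image (sg w))ᶜ, 1) :=
      (isHomogeneous_X _ _).mul (IsHomogeneous.prod _ _ _ fun i _ => hom_lf _)
    have h2 : 1 + ∑ i ∈ (univ.image (sg w))ᶜ, 1 = e - n := by
      rw [sum_const, himc, smul_eq_mul, mul_one]
      have := hcard w
      omega
    rw [h2] at h1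
    by_contra hcon
    rw [← Finsupp.degree_eq_sum] at hcon
    exact (mem_support_iff.1 hu) (h1.coeff_eq_zero hcon)
  · have h1 : e - n = 1 + ((univ.image (sg w))ᶜ).card := by
      rw [himc]
      have := hcard w
      omega
    rw [h1, Finsupp.single_add, coeff_X_mul, coeff_lf_prod]
    exact IsUnit.prod_iff.2 fun i hi => hunit w i (by rwa [mem_compl] at hi)
  · -- unisolvence
    obtain ⟨G, hG⟩ : ∃ G : Exps n e → MvPolynomial (Fin (n + 1)) A,
        G = fun j => ∏ i ∈ (univ.image (sg j))ᶜ, lf (l i) := ⟨_, rfl⟩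
    have hGhom : ∀ j, (G j).IsHomogeneous (e - (n + 1)) := by
      intro j
      have h1 : (∏ i ∈ (univ.image (sg j))ᶜ, lf (l i)).IsHomogeneous (∑ i ∈ (univ.image (sg j))ᶜ, 1) :=
        IsHomogeneous.prod _ _ _ fun i _ => hom_lf _
      rw [sum_const, himc, smul_eq_mul, mul_one] at h1
      rw [hG]
      exact h1
    have hev : ∀ j' j : Exps n e, eval (fun i => (L j')⁻¹ i 0) (G j) =
        ∏ i ∈ (univ.image (sg j))ᶜ, Matrix.vecMul (l i) (L j')⁻¹ 0 := by
      intro j' j
      rw [hG]
      simp only [map_prod, eval_lf]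
      rfl
    have hoff : ∀ j' j : Exps n e, j' ≠ j → eval (fun i => (L j')⁻¹ i 0) (G j) = 0 := by
      intro j' j hne
      rw [hev]
      obtain ⟨t, ht0, ht⟩ : ∃ t : Fin (n + 1), t ≠ 0 ∧ sg j' t ∉ Set.range (sg j) := by
        by_contra hcon
        push Not at hcon
        exact hne (sg_sep j j' hcon).symm
      apply prod_eq_zero (i := sg j' t)
      · rw [mem_compl, mem_image]
        rintro ⟨a, _, ha⟩
        exact ht ⟨a, ha⟩
      · rw [hrow]
        exact if_neg (Ne.symm ht0)
    have hon : ∀ j : Exps n e, eval (fun i => (L j)⁻¹ i 0) (G j) ≠ 0 := by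
      intro j
      rw [hev]
      exact (IsUnit.prod_iff.2 fun i hi => hunit j i (by rwa [mem_compl] at hi)).ne_zero
    intro hdet
    have hmul : (Matrix.of fun j w => eval (fun i => (L j)⁻¹ i 0)
        (monomial (wexp n e w - one (Fin (n + 1))) (1 : A))) *
        (Matrix.of fun w j => coeff (wexp n e w - one (Fin (n + 1))) (G j)) =
        Matrix.diagonal fun j : Exps n e => eval (fun i => (L j)⁻¹ i 0) (G j) := by
      ext j' j
      rw [Matrix.mul_apply]
      simp only [Matrix.of_apply]
      have h1 := eval_exp (hcard j) (G j) (hGhom j) (fun i => (L j')⁻¹ i 0)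
      have h2 : ∑ w : Exps n e, eval (fun i => (L j')⁻¹ i 0) (monomial (wexp n e w - one (Fin (n + 1))) (1 : A)) *
          coeff (wexp n e w - one (Fin (n + 1))) (G j) = eval (fun i => (L j')⁻¹ i 0) (G j) := by
        rw [h1]
        exact sum_congr rfl fun w _ => mul_comm _ _
      rw [h2, Matrix.diagonal_apply]
      split_ifs with h
      · rw [h]
      · exact hoff j' j h
    have h1 := congrArg Matrix.det hmul
    rw [Matrix.det_mul, hdet, zero_mul, Matrix.det_diagonal] at h1
    exact (prod_ne_zero_iff.2 fun j _ => hon j) h1.symm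

end Pool.Agent.Q102.AP
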