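import Pool.Agent.Q267.AP.StmN

set_option autoImplicit false

/-! Larger sieve with weights (lemma job AP-Larger of helper267). -/

namespace Pool.Agent.Q102.AP

open Finset Pool.Agent.Q267.AP

/-- the number of congruent pairs -/
def PP (E : Finset ℕ) (m : ℕ) : ℕ := ((E ×ˢ E).filter fun x => x.1 % m = x.2 % m).card

lemma sum_sq_le (E : Finset ℕ) (m : ℕ) (hm : 0 < m) :
    ∑ c ∈ range m, ((E.filter fun t => t % m = c).card : ℝ) ^ 2 ≤ PP E m := by
  have h1 : PP E m = ∑ c ∈ range m, (((E ×ˢ E).filter fun x => x.1 % m = x.2 % m).filter fun x => x.1 % m = c).card := by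
    unfold PP
    exact card_eq_sum_card_fiberwise fun x _ => by simpa using Nat.mod_lt _ hm
  rw [h1]
  push_cast
  refine sum_le_sum fun c _ => ?_
  have h2 : ((E.filter fun t => t % m = c) ×ˢ (E.filter fun t => t % m = c)).card ≤
      (((E ×ˢ E).filter fun x => x.1 % m = x.2 % m).filter fun x => x.1 % m = c).card := by
    apply card_le_card
    intro x hx
    rw [mem_product, mem_filter, mem_filter] at hx
    rw [mem_filter, mem_filter, mem_product]
    exact ⟨⟨⟨hx.1.1, hx.2.1⟩, by rw [hx.1.2, hx.2.2]⟩, hx.1.2⟩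
  rw [card_product] at h2
  rw [sq]
  exact_mod_cast h2

lemma theta_le (Q : ℕ) : ∑ p ∈ (range (Q + 1)).filter Nat.Prime, Real.log p ≤ Real.log 4 * Q := by
  have h1 : ∑ p ∈ (range (Q + 1)).filter Nat.Prime, Real.log p = Real.log (primorial Q) := by
    unfold primorial
    push_cast
    rw [Real.log_prod]
    intro p hp
    rw [mem_filter] at hp
    exact_mod_cast hp.2.ne_zero
  rw [h1]
  have h2 : (primorial Q : ℝ) ≤ 4 ^ Q := by exact_mod_cast primorial_le_four_pow Q
  calc Real.log (primorial Q) ≤ Real.log (4 ^ Q) := Real.log_le_log (by exact_mod_cast primorial_pos Q) h2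
    _ = _ := by rw [Real.log_pow]; ring

lemma sum_log_dvd {m : ℕ} (hm : m ≠ 0) (T : Finset ℕ) (hT : ∀ p ∈ T, p.Prime ∧ p ∣ m) :
    ∑ p ∈ T, Real.log p ≤ Real.log m := by
  rw [← Real.log_prod fun p hp => by exact_mod_cast (hT p hp).1.ne_zero]
  have h1 : ∏ p ∈ T, p ∣ m := by
    refine (prod_dvd_prod_of_subset T m.primeFactors _ fun p hp => ?_).trans (Nat.prod_primeFactors_dvd m)
    rw [Nat.mem_primeFactors]
    exact ⟨(hT p hp).1, (hT p hp).2, hm⟩
  have h2 : ∏ p ∈ T, p ≤ m := Nat.le_of_dvd (Nat.pos_of_ne_zero hm) h1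
  have h3 : 0 < ∏ p ∈ T, p := Nat.pos_of_dvd_of_pos h1 (Nat.pos_of_ne_zero hm)
  have h4 : ∏ p ∈ T, (p : ℝ) = ((∏ p ∈ T, p : ℕ) : ℝ) := by push_cast; rfl
  rw [h4]
  apply Real.log_le_log
  · exact_mod_cast h3
  · exact_mod_cast h2

lemma pair_sum {X Q : ℕ} (E : Finset ℕ) (hE : ∀ t ∈ E, 1 ≤ t ∧ t ≤ X) :
    ∑ p ∈ (range (Q + 1)).filter Nat.Prime, Real.log p * PP E p ≤
      E.card * (Real.log 4 * Q) + (E.card : ℝ) ^ 2 * Real.log X := by
  classical
  have h1 : ∀ p : ℕ, Real.log p * PP E p = ∑ x ∈ E ×ˢ E, if x.1 % p = x.2 % p then Real.log p else 0 := by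
    intro p
    unfold PP
    rw [← sum_filter, sum_const, nsmul_eq_mul]
    ring
  simp_rw [h1]
  rw [sum_comm]
  have h2 : ∀ x ∈ E ×ˢ E, ∑ p ∈ (range (Q + 1)).filter Nat.Prime, (if x.1 % p = x.2 % p then Real.log p else 0) ≤
      (if x.1 = x.2 then Real.log 4 * Q else 0) + Real.log X := by
    intro x hx
    rw [mem_product] at hx
    have hX1 : (1:ℝ) ≤ X := by
      have := hE _ hx.1
      exact_mod_cast this.1.trans this.2
    have hX : 0 ≤ Real.log X := Real.log_nonneg hX1
    by_cases h : x.1 = x.2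
    · rw [if_pos h]
      have h3 : ∑ p ∈ (range (Q + 1)).filter Nat.Prime, (if x.1 % p = x.2 % p then Real.log p else 0) =
          ∑ p ∈ (range (Q + 1)).filter Nat.Prime, Real.log p := sum_congr rfl fun p _ => by rw [h, if_pos rfl]
      rw [h3]
      linarith [theta_le Q]
    · rw [if_neg h, zero_add, ← sum_filter]
      obtain ⟨m, hm0, hmX, hmd⟩ : ∃ m : ℕ, m ≠ 0 ∧ m ≤ X ∧ ∀ p, x.1 % p = x.2 % p → p ∣ m := by
        rcases Nat.lt_or_gt_of_ne h with h | h
        · exact ⟨x.2 - x.1, by omega, by have := (hE _ hx.2).2; omega, fun p hp => (Nat.modEq_iff_dvd' h.le).1 hp⟩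
        · exact ⟨x.1 - x.2, by omega, by have := (hE _ hx.1).2; omega, fun p hp => (Nat.modEq_iff_dvd' h.le).1 hp.symm⟩
      refine (sum_log_dvd hm0 _ fun p hp => ?_).trans ?_
      · rw [mem_filter, mem_filter] at hp
        exact ⟨hp.1.2, hmd p hp.2⟩
      · apply Real.log_le_log
        · exact_mod_cast Nat.pos_of_ne_zero hm0
        · exact_mod_cast hmX
  refine (sum_le_sum h2).trans ?_
  rw [sum_add_distrib, sum_const, card_product, nsmul_eq_mul]
  have h3 : ∑ x ∈ E ×ˢ E, (if x.1 = x.2 then Real.log 4 * Q else 0) = E.card * (Real.log 4 * Q) := by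
    rw [sum_product]
    have h4 : ∀ a ∈ E, ∑ b ∈ E, (if a = b then Real.log 4 * Q else 0) = Real.log 4 * Q := by
      intro a ha
      rw [sum_ite_eq, if_pos ha]
    rw [sum_congr rfl h4, sum_const, nsmul_eq_mul]
  rw [h3]
  push_cast
  rw [sq]

theorem larger : S_Larger := by
  classical
  intro V X Q d E W q Bad ε hε hE hW hd hBad hcard
  have hq1 : ∀ v ∈ W, (1:ℝ) ≤ q v := fun v hv => by exact_mod_cast (hW v hv).1.one_lt.le
  have hlog : ∀ v ∈ W, 0 ≤ Real.log (q v) := fun v hv => Real.log_nonneg (hq1 v hv)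
  have ha : ∀ v ∈ W, 0 ≤ Real.log (q v) / q v := fun v hv => div_nonneg (hlog v hv) (by linarith [hq1 v hv])
  have hS0 : 0 ≤ ∑ v ∈ W, Real.log (q v) / q v := sum_nonneg ha
  -- Cauchy-Schwarz over the places
  have h1 : (∑ v ∈ W, Real.log (q v) / q v * (E.filter fun t => Bad v t).card) ^ 2 ≤
      (∑ v ∈ W, Real.log (q v) / q v) *
        ∑ v ∈ W, Real.log (q v) / q v * ((E.filter fun t => Bad v t).card : ℝ) ^ 2 := by
    refine sum_sq_le_sum_mul_sum_of_sq_le_mul W ha (fun v hv => mul_nonneg (ha v hv) (sq_nonneg _)) fun v _ => ?_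
    exact le_of_eq (by ring)
  -- Cauchy-Schwarz over the classes
  have h2 : ∀ v ∈ W, Real.log (q v) / q v * ((E.filter fun t => Bad v t).card : ℝ) ^ 2 ≤
      ε * (Real.log (q v) * PP E (q v)) := by
    intro v hv
    have hqp : 0 < q v := (hW v hv).1.pos
    have hqp' : (0:ℝ) < q v := by exact_mod_cast hqp
    have h3 : ((E.filter fun t => Bad v t).card : ℝ) ≤ ∑ c ∈ (range (q v)).filter (fun a => Bad v a),
        ((E.filter fun t => t % q v = c).card : ℝ) := by
      have h4 : (E.filter fun t => Bad v t).card = ∑ c ∈ (range (q v)).filter (fun a => Bad v a),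
          ((E.filter fun t => Bad v t).filter fun t => t % q v = c).card := by
        apply card_eq_sum_card_fiberwise
        intro t ht
        rw [mem_coe, mem_filter] at ht
        rw [mem_coe, mem_filter, mem_range]
        exact ⟨Nat.mod_lt _ hqp, (hBad v hv t).1 ht.2⟩
      rw [h4]
      push_cast
      refine sum_le_sum fun c _ => ?_
      have h5 : ((E.filter fun t => Bad v t).filter fun t => t % q v = c).card ≤
          (E.filter fun t => t % q v = c).card := by
        apply card_le_card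
        intro t ht
        rw [mem_filter, mem_filter] at ht
        rw [mem_filter]
        exact ⟨ht.1.1, ht.2⟩
      exact_mod_cast h5
    have h4 : ((E.filter fun t => Bad v t).card : ℝ) ^ 2 ≤ (ε * q v) * PP E (q v) := by
      calc ((E.filter fun t => Bad v t).card : ℝ) ^ 2 ≤ (∑ c ∈ (range (q v)).filter (fun a => Bad v a),
            ((E.filter fun t => t % q v = c).card : ℝ)) ^ 2 := pow_le_pow_left₀ (Nat.cast_nonneg _) h3 2
        _ ≤ (((range (q v)).filter fun a => Bad v a).card : ℝ) * ∑ c ∈ (range (q v)).filter (fun a => Bad v a),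
            ((E.filter fun t => t % q v = c).card : ℝ) ^ 2 := sq_sum_le_card_mul_sum_sq
        _ ≤ (ε * q v) * PP E (q v) := by
            apply mul_le_mul (hcard v hv) _ (sum_nonneg fun _ _ => sq_nonneg _) (mul_nonneg hε.le hqp'.le)
            refine le_trans ?_ (sum_sq_le E (q v) hqp)
            exact sum_le_sum_of_subset_of_nonneg (filter_subset _ _) fun _ _ _ => sq_nonneg _
    calc Real.log (q v) / q v * ((E.filter fun t => Bad v t).card : ℝ) ^ 2 ≤
        Real.log (q v) / q v * ((ε * q v) * PP E (q v)) := mul_le_mul_of_nonneg_left h4 (ha v hv)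
      _ = _ := by field_simp
  have h3 : ∑ v ∈ W, Real.log (q v) * PP E (q v) ≤
      d * ∑ p ∈ (range (Q + 1)).filter Nat.Prime, Real.log p * PP E p := by
    have h4 : ∀ v ∈ W, q v ∈ (range (Q + 1)).filter Nat.Prime := fun v hv => by
      rw [mem_filter, mem_range]
      exact ⟨Nat.lt_succ_of_le (hW v hv).2, (hW v hv).1⟩
    rw [← sum_fiberwise_of_maps_to h4, mul_sum]
    refine sum_le_sum fun p hp => ?_
    have h5 : ∑ v ∈ W with q v = p, Real.log (q v) * PP E (q v) =
        (W.filter fun v => q v = p).card * (Real.log p * PP E p) := by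
      rw [← nsmul_eq_mul, ← sum_const]
      refine sum_congr rfl fun v hv => ?_
      rw [mem_filter] at hv
      rw [hv.2]
    rw [h5]
    have h6 : 0 ≤ Real.log p * PP E p := by
      rw [mem_filter] at hp
      have : (1:ℝ) ≤ p := by exact_mod_cast hp.2.one_lt.le
      exact mul_nonneg (Real.log_nonneg this) (Nat.cast_nonneg _)
    exact mul_le_mul_of_nonneg_right (by exact_mod_cast hd p) h6
  have h4 := pair_sum (Q := Q) E hE
  calc (∑ v ∈ W, Real.log (q v) / q v * (E.filter fun t => Bad v t).card) ^ 2 ≤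
      (∑ v ∈ W, Real.log (q v) / q v) *
        ∑ v ∈ W, Real.log (q v) / q v * ((E.filter fun t => Bad v t).card : ℝ) ^ 2 := h1
    _ ≤ (∑ v ∈ W, Real.log (q v) / q v) * (ε * (d * (E.card * (Real.log 4 * Q) + (E.card : ℝ) ^ 2 * Real.log X))) := by
        refine mul_le_mul_of_nonneg_left ?_ hS0
        refine (sum_le_sum h2).trans ?_
        rw [← mul_sum]
        refine mul_le_mul_of_nonneg_left (h3.trans ?_) hε.le
        exact mul_le_mul_of_nonneg_left h4 (Nat.cast_nonneg _)
    _ = _ := by ring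

end Pool.Agent.Q102.AP
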