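import Pool.Agent.Q267.AP.StmN
import Pool.Agent.Erdos456.Mertens

set_option autoImplicit false

/-! Mertens bounds for the places of a number field (lemma job AP-Mert of helper267). -/

namespace Pool.Agent.Q102.AP

open Finset Pool.Agent.Q267.AP NumberField IsDedekindDomain

variable {K : Type} [Field K] [NumberField K]

lemma norm_form (v : HeightOneSpectrum (𝓞 K)) : ∃ p k : ℕ, p.Prime ∧ 1 ≤ k ∧
    Ideal.absNorm v.asIdeal = p ^ k ∧ (p : 𝓞 K) ∈ v.asIdeal := by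
  have : v.asIdeal.IsMaximal := v.isMaximal
  let _ := Ideal.Quotient.field v.asIdeal
  have : Finite (𝓞 K ⧸ v.asIdeal) := Ideal.finiteQuotientOfFreeOfNeBot _ v.ne_bot
  cases nonempty_fintype (𝓞 K ⧸ v.asIdeal)
  obtain ⟨p, hc⟩ := CharP.exists (𝓞 K ⧸ v.asIdeal)
  obtain ⟨k, hp, hk⟩ := FiniteField.card (𝓞 K ⧸ v.asIdeal) p
  refine ⟨p, k, hp, k.pos, ?_, ?_⟩
  · rw [Ideal.absNorm_apply, Submodule.cardQuot_apply, ← hk]
    exact Nat.card_eq_fintype_card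
  · rw [← Ideal.Quotient.eq_zero_iff_mem, map_natCast]
    exact CharP.cast_eq_zero _ _

lemma le_two_pow (k : ℕ) (hk : 1 ≤ k) : k ≤ 2 ^ (k - 1) := by
  have : k - 1 < 2 ^ (k - 1) := Nat.lt_two_pow_self
  omega

lemma quot_le {p k : ℕ} (hp : p.Prime) (hk : 1 ≤ k) :
    Real.log ((p ^ k : ℕ) : ℝ) / ((p ^ k : ℕ) : ℝ) ≤ Real.log p / p := by
  have hp0 : (0:ℝ) < p := by exact_mod_cast hp.pos
  have hp2 : (2:ℝ) ≤ p := by exact_mod_cast hp.two_le
  have hlog : 0 ≤ Real.log p := Real.log_nonneg (by linarith)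
  have hk2 : (k:ℝ) ≤ (p:ℝ) ^ (k - 1) := by
    have h1 : (k:ℝ) ≤ 2 ^ (k - 1) := by exact_mod_cast le_two_pow k hk
    exact h1.trans (pow_le_pow_left₀ (by norm_num) hp2 _)
  push_cast
  rw [Real.log_pow, div_le_div_iff₀ (by positivity) hp0]
  have h3 : (p:ℝ) ^ k = p ^ (k - 1) * p := by rw [← pow_succ, Nat.sub_add_cancel hk]
  rw [h3]
  calc (k:ℝ) * Real.log p * p ≤ (p:ℝ) ^ (k - 1) * Real.log p * p := by gcongr
    _ = _ := by ring

lemma quot_le2 {p k : ℕ} (hp : p.Prime) (hk : 2 ≤ k) :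
    Real.log ((p ^ k : ℕ) : ℝ) / ((p ^ k : ℕ) : ℝ) ≤ 4 * (1 / (p:ℝ) ^ (3 / 2 : ℝ)) := by
  have hp0 : (0:ℝ) < p := by exact_mod_cast hp.pos
  have hp2 : (2:ℝ) ≤ p := by exact_mod_cast hp.two_le
  have hlog : 0 ≤ Real.log p := Real.log_nonneg (by linarith)
  have hk2 : (k:ℝ) ≤ 2 * (p:ℝ) ^ (k - 2) := by
    have h1 : k ≤ 2 * 2 ^ (k - 2) := by
      have h2 := le_two_pow k (by omega)
      have e : k - 1 = (k - 2) + 1 := by omega
      rw [e, pow_succ] at h2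
      omega
    have h1' : (k:ℝ) ≤ 2 * 2 ^ (k - 2) := by exact_mod_cast h1
    refine h1'.trans ?_
    exact mul_le_mul_of_nonneg_left (pow_le_pow_left₀ (by norm_num) hp2 _) (by norm_num)
  have hl : Real.log p ≤ 2 * (p:ℝ) ^ (1 / 2 : ℝ) := by
    have := Real.log_le_rpow_div hp0.le (show (0:ℝ) < 1 / 2 by norm_num)
    linarith
  push_cast
  rw [Real.log_pow]
  have h3 : (p:ℝ) ^ k = p ^ (k - 2) * p ^ 2 := by rw [← pow_add, Nat.sub_add_cancel hk]
  rw [h3, mul_one_div, div_le_div_iff₀ (by positivity) (by positivity)]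
  have h4 : (p:ℝ) ^ 2 = (p:ℝ) ^ (1 / 2 : ℝ) * (p:ℝ) ^ (3 / 2 : ℝ) := by
    rw [← Real.rpow_add hp0]
    norm_num
  calc (k:ℝ) * Real.log p * (p:ℝ) ^ (3 / 2 : ℝ) ≤
      (2 * (p:ℝ) ^ (k - 2)) * (2 * (p:ℝ) ^ (1 / 2 : ℝ)) * (p:ℝ) ^ (3 / 2 : ℝ) := by gcongr
    _ = 4 * ((p:ℝ) ^ (k - 2) * ((p:ℝ) ^ (1 / 2 : ℝ) * (p:ℝ) ^ (3 / 2 : ℝ))) := by ring
    _ = _ := by rw [← h4]

lemma fib {Q : ℕ} (S : Finset (HeightOneSpectrum (𝓞 K))) (P : HeightOneSpectrum (𝓞 K) → ℕ)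
    (hP : ∀ v ∈ S, (P v).Prime ∧ P v ≤ Q ∧ (P v : 𝓞 K) ∈ v.asIdeal) (g : ℕ → ℝ) (hg : ∀ p : ℕ, p.Prime → 0 ≤ g p) :
    ∑ v ∈ S, g (P v) ≤ Module.finrank ℚ K * ∑ p ∈ (Icc 1 Q).filter Nat.Prime, g p := by
  classical
  have h1 : ∀ v ∈ S, P v ∈ (Icc 1 Q).filter Nat.Prime := fun v hv => by
    rw [mem_filter, mem_Icc]
    exact ⟨⟨(hP v hv).1.pos, (hP v hv).2.1⟩, (hP v hv).1⟩
  rw [← sum_fiberwise_of_maps_to h1, mul_sum]
  refine sum_le_sum fun p hp => ?_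
  rw [mem_filter] at hp
  have h2 : ∑ v ∈ S with P v = p, g (P v) = (S.filter fun v => P v = p).card * g p := by
    rw [← nsmul_eq_mul, ← sum_const]
    refine sum_congr rfl fun v hv => ?_
    rw [mem_filter] at hv
    rw [hv.2]
  rw [h2]
  have h3 := Pool.Agent.W352.ChAbs.over_le (K := K) p hp.2
  have h4 : (S.filter fun v => P v = p).card ≤ Module.finrank ℚ K := by
    refine le_trans ?_ h3.2
    rw [← Set.ncard_coe_finset]
    apply Set.ncard_le_ncard _ h3.1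
    intro v hv
    rw [mem_coe, mem_filter] at hv
    have := (hP v hv.1).2.2
    rw [hv.2] at this
    exact this
  exact mul_le_mul_of_nonneg_right (by exact_mod_cast h4) (hg p hp.2)

theorem mert : S_Mert := by
  classical
  intro K _ _
  choose P k hP hk hN hPv using norm_form (K := K)
  obtain ⟨C0, hC0⟩ := Pool.Agent.Erdos456.Mert.mertens_log
  have hsum : Summable fun n : ℕ => 1 / (n:ℝ) ^ (3 / 2 : ℝ) := Real.summable_one_div_nat_rpow.2 (by norm_num)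
  obtain ⟨Z, hZ⟩ : ∃ Z : ℝ, Z = ∑' n : ℕ, 1 / (n:ℝ) ^ (3 / 2 : ℝ) := ⟨_, rfl⟩
  have hZ0 : 0 ≤ Z := by rw [hZ]; exact tsum_nonneg fun n => by positivity
  obtain ⟨d, hd⟩ : ∃ d : ℝ, d = (Module.finrank ℚ K : ℝ) := ⟨_, rfl⟩
  have hd0 : 0 ≤ d := by rw [hd]; exact Nat.cast_nonneg _
  refine ⟨d * (1 + |C0|) + d * (4 * Z), fun Q hQ => ⟨?_, ?_⟩⟩
  · have hmem : ∀ v ∈ pls K Q, (P v).Prime ∧ P v ≤ Q ∧ (P v : 𝓞 K) ∈ v.asIdeal := by
      intro v hv
      rw [pls, Set.Finite.mem_toFinset] at hv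
      refine ⟨hP v, ?_, hPv v⟩
      have h1 : Ideal.absNorm v.asIdeal ≤ Q := hv
      rw [hN v] at h1
      exact (Nat.le_self_pow (by have := hk v; omega) _).trans h1
    have h1 : ∑ v ∈ pls K Q, Real.log (Ideal.absNorm v.asIdeal) / Ideal.absNorm v.asIdeal ≤
        ∑ v ∈ pls K Q, Real.log (P v) / (P v) := by
      refine sum_le_sum fun v _ => ?_
      rw [hN v]
      exact quot_le (hP v) (hk v)
    have h2 := fib (pls K Q) P hmem (fun p => Real.log p / p) (fun p hp => by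
      have : (1:ℝ) ≤ p := by exact_mod_cast hp.one_lt.le
      exact div_nonneg (Real.log_nonneg this) (by linarith))
    have h3 := (abs_le.1 (hC0 Q hQ)).2
    have h4 : 0 ≤ Real.log Q := Real.log_nonneg (by exact_mod_cast hQ)
    rw [← hd] at h2
    have h5 : d * ∑ p ∈ (Icc 1 Q).filter Nat.Prime, Real.log p / p ≤ d * (Real.log Q + |C0|) := by
      refine mul_le_mul_of_nonneg_left ?_ hd0
      linarith [le_abs_self C0]
    refine (h1.trans h2).trans (h5.trans ?_)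
    have h6 : 0 ≤ |C0| := abs_nonneg _
    have h7 : 0 ≤ d * (4 * Z) := by positivity
    nlinarith [mul_nonneg (mul_nonneg hd0 h6) h4, mul_nonneg h7 h4, mul_nonneg hd0 h4]
  · have hmem : ∀ v ∈ (pls K Q).filter (fun v => ¬ (Ideal.absNorm v.asIdeal).Prime),
        (P v).Prime ∧ P v ≤ Q ∧ (P v : 𝓞 K) ∈ v.asIdeal := by
      intro v hv
      rw [mem_filter, pls, Set.Finite.mem_toFinset] at hv
      refine ⟨hP v, ?_, hPv v⟩
      have h1 : Ideal.absNorm v.asIdeal ≤ Q := hv.1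
      rw [hN v] at h1
      exact (Nat.le_self_pow (by have := hk v; omega) _).trans h1
    have h1 : ∑ v ∈ (pls K Q).filter (fun v => ¬ (Ideal.absNorm v.asIdeal).Prime),
        Real.log (Ideal.absNorm v.asIdeal) / Ideal.absNorm v.asIdeal ≤
        ∑ v ∈ (pls K Q).filter (fun v => ¬ (Ideal.absNorm v.asIdeal).Prime), 4 * (1 / (P v : ℝ) ^ (3 / 2 : ℝ)) := by
      refine sum_le_sum fun v hv => ?_
      rw [mem_filter] at hv
      have hk2 : 2 ≤ k v := by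
        by_contra hcon
        have h2 : k v = 1 := by have := hk v; omega
        apply hv.2
        rw [hN v, h2, pow_one]
        exact hP v
      rw [hN v]
      exact quot_le2 (hP v) hk2
    have h2 := fib _ P hmem (fun p => 4 * (1 / (p:ℝ) ^ (3 / 2 : ℝ))) (fun p _ => by positivity)
    have h3 : ∑ p ∈ (Icc 1 Q).filter Nat.Prime, 4 * (1 / (p:ℝ) ^ (3 / 2 : ℝ)) ≤ 4 * Z := by
      rw [← mul_sum, hZ]
      refine mul_le_mul_of_nonneg_left ?_ (by norm_num)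
      exact hsum.sum_le_tsum _ fun n _ => by positivity
    rw [← hd] at h2
    refine (h1.trans h2).trans ((mul_le_mul_of_nonneg_left h3 hd0).trans ?_)
    have h6 : 0 ≤ |C0| := abs_nonneg _
    nlinarith [mul_nonneg hd0 h6]

end Pool.Agent.Q102.AP
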