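import Pool.Agent.Q102.AP.Cart
import Pool.Agent.Q267.ST.Scale

set_option autoImplicit false

/-! The normal form in a chart (lemma job AP-Norm of helper267). -/

namespace Pool.Agent.Q102.AP

open Finset Pool.Agent.Q267.AP Pool.Agent.Q267.ST

section
variable {ι A : Type} [CommRing A]

/-- polynomials in `S` over the Laurent polynomials -/
noncomputable def toP [DecidableEq ι] : MvPolynomial ι (Polynomial A) →+* Polynomial (LP ι A) :=
  MvPolynomial.eval₂Hom (Polynomial.mapRingHom (algebraMap A (LP ι A)))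
    fun i => Polynomial.C (AddMonoidAlgebra.single (Pi.single i 1) 1)

/-- Laurent monomials -/
noncomputable def xP (u : ι → ℤ) : Polynomial (LP ι A) := Polynomial.C (AddMonoidAlgebra.single u 1)

lemma coe_xP (u : ι → ℤ) : ((xP u : Polynomial (LP ι A)) : PowerSeries (LP ι A)) = xm u := by
  unfold xP xm
  rw [Polynomial.coe_C]

lemma xP_add (u v : ι → ℤ) : (xP (u + v) : Polynomial (LP ι A)) = xP u * xP v := by
  unfold xP
  rw [← map_mul, AddMonoidAlgebra.single_mul_single, mul_one]

lemma xP_zero : (xP (0 : ι → ℤ) : Polynomial (LP ι A)) = 1 := by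
  unfold xP
  rw [← AddMonoidAlgebra.one_def, map_one]

lemma xP_pow (u : ι → ℤ) (n : ℕ) : (xP u : Polynomial (LP ι A)) ^ n = xP (n • u) := by
  induction n with
  | zero => rw [pow_zero, zero_smul, xP_zero]
  | succ n ih => rw [pow_succ, ih, ← xP_add, succ_nsmul]

lemma toP_C [DecidableEq ι] (a : Polynomial A) : toP (MvPolynomial.C a : MvPolynomial ι (Polynomial A)) =
    a.map (algebraMap A (LP ι A)) := by
  simp [toP]

lemma toP_X [DecidableEq ι] (i : ι) : toP (MvPolynomial.X i : MvPolynomial ι (Polynomial A)) =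
    xP (Pi.single i 1) := by
  simp only [toP, xP, MvPolynomial.coe_eval₂Hom, MvPolynomial.eval₂_X]

lemma coe_toP [DecidableEq ι] (F : MvPolynomial ι (Polynomial A)) :
    ((toP F : Polynomial (LP ι A)) : PowerSeries (LP ι A)) = toL F := by
  have h : (Polynomial.coeToPowerSeries.ringHom (R := LP ι A)).comp (toP (ι := ι) (A := A)) = toL := by
    apply MvPolynomial.ringHom_ext
    · intro a
      rw [RingHom.comp_apply, toP_C, toL_C]
      ext n
      rw [Polynomial.coeToPowerSeries.ringHom_apply, Polynomial.coeff_coe, Polynomial.coeff_map, coeff_cst,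
        Polynomial.coeff_coe]
      rfl
    · intro i
      rw [RingHom.comp_apply, toP_X, Polynomial.coeToPowerSeries.ringHom_apply, coe_xP]
      simp [toL]
  rw [← h, RingHom.comp_apply, Polynomial.coeToPowerSeries.ringHom_apply]

variable [Fintype ι]

lemma xP_prod [DecidableEq ι] (v : ι → ℕ) : ∏ i, (xP (Pi.single i 1) : Polynomial (LP ι A)) ^ v i =
    xP (fun i => (v i : ℤ)) := by
  have h2 : ∀ s : Finset ι, ∏ i ∈ s, (xP (Pi.single i 1) : Polynomial (LP ι A)) ^ v i =
      xP (∑ i ∈ s, v i • (Pi.single i 1 : ι → ℤ)) := by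
    intro s
    induction s using Finset.induction_on with
    | empty => rw [prod_empty, sum_empty, xP_zero]
    | insert a s ha ih => rw [prod_insert ha, sum_insert ha, xP_add, ih, xP_pow]
  rw [h2]
  congr 1
  ext j
  rw [Finset.sum_apply, sum_eq_single j]
  · simp
  · intro i _ hi
    simp [Ne.symm hi]
  · intro h
    exact absurd (mem_univ _) h

lemma toP_monomial [DecidableEq ι] (v : ι →₀ ℕ) (a : Polynomial A) :
    toP (MvPolynomial.monomial v a) = a.map (algebraMap A (LP ι A)) * xP (zexp v) := by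
  rw [monomial_eq', map_mul, toP_C, map_prod]
  simp only [map_pow, toP_X]
  rw [xP_prod]
  rfl

omit [Fintype ι] in
lemma scal_X (ω : ι → ℕ) (γ : A) (N : ℕ) (i : ι) : scal ω γ N (MvPolynomial.X i) =
    MvPolynomial.C (Polynomial.X ^ ω i) * MvPolynomial.X i := by
  unfold scal
  rw [MvPolynomial.coe_eval₂Hom, MvPolynomial.eval₂_X]

omit [Fintype ι] in
lemma scal_C (ω : ι → ℕ) (γ : A) (N : ℕ) (a : Polynomial A) : scal ω γ N (MvPolynomial.C a) =
    MvPolynomial.C (a.comp (Polynomial.C γ * Polynomial.X ^ N)) := by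
  unfold scal
  rw [MvPolynomial.coe_eval₂Hom, MvPolynomial.eval₂_C]
  rfl

/-- the polynomial chart -/
noncomputable def chP [DecidableEq ι] (ω : ι → ℕ) (γ : A) (N : ℕ) (M : Matrix ι ι A) :
    MvPolynomial ι (Polynomial A) →+* Polynomial (LP ι A) :=
  (toP.comp (scal ω γ N)).comp (lin (M.map Polynomial.C))

lemma coe_chP [DecidableEq ι] (ω : ι → ℕ) (γ : A) (N : ℕ) (M : Matrix ι ι A) (F : MvPolynomial ι (Polynomial A)) :
    ((chP ω γ N M F : Polynomial (LP ι A)) : PowerSeries (LP ι A)) = chart ω γ N M F := by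
  unfold chP chart
  rw [RingHom.comp_apply, RingHom.comp_apply, coe_toP, RingHom.comp_apply, RingHom.comp_apply]

lemma lin_map [DecidableEq ι] (M : Matrix ι ι A) (h : MvPolynomial ι A) :
    lin (M.map Polynomial.C) (MvPolynomial.map Polynomial.C h) = MvPolynomial.map Polynomial.C (lin M h) := by
  have h1 : (lin (M.map Polynomial.C)).comp (MvPolynomial.map Polynomial.C) =
      (MvPolynomial.map Polynomial.C).comp (lin M) := by
    apply MvPolynomial.ringHom_ext
    · intro a
      rw [RingHom.comp_apply, RingHom.comp_apply, MvPolynomial.map_C, lin_C, lin_C, MvPolynomial.map_C]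
    · intro i
      rw [RingHom.comp_apply, RingHom.comp_apply, MvPolynomial.map_X, lin_X, lin_X, map_sum]
      refine sum_congr rfl fun j _ => ?_
      rw [map_mul, MvPolynomial.map_C, MvPolynomial.map_X]
      rfl
  have h2 := congrFun (congrArg DFunLike.coe h1) h
  exact h2

/-- the image of a monomial with constant coefficient -/
lemma sc_monomial [DecidableEq ι] (ω : ι → ℕ) (γ : A) (N : ℕ) (u : ι →₀ ℕ) (a : A) :
    toP (scal ω γ N (MvPolynomial.monomial u (Polynomial.C a))) =
      Polynomial.X ^ (∑ i, ω i * u i) * (Polynomial.C (algebraMap A (LP ι A) a) * xP (zexp u)) := by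
  rw [monomial_eq', map_mul, scal_C, map_prod, Polynomial.C_comp, map_mul, toP_C, map_prod]
  simp only [map_pow, scal_X, mul_pow, map_mul, toP_C, toP_X, Polynomial.map_X,
    Polynomial.map_C]
  rw [prod_mul_distrib, xP_prod]
  have h1 : ∏ x, ((Polynomial.X : Polynomial (LP ι A)) ^ ω x) ^ u x = Polynomial.X ^ (∑ i, ω i * u i) := by
    rw [← prod_pow_eq_pow_sum]
    exact prod_congr rfl fun i _ => (pow_mul _ _ _).symm
  rw [h1]
  have h2 : (xP (zexp u) : Polynomial (LP ι A)) = xP (fun i => (u i : ℤ)) := rfl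
  rw [h2]
  ring

end

/-- the constants -/
noncomputable def al (ι : Type) {A : Type} [CommRing A] (a : A) : Polynomial (LP ι A) :=
  Polynomial.C (algebraMap A (LP ι A) a)

section
variable {ι A : Type} [CommRing A]

lemma al_mul (a b : A) : al ι (a * b) = al ι a * al ι b := by unfold al; rw [map_mul, map_mul]
lemma al_one : al ι (1 : A) = 1 := by unfold al; rw [map_one, map_one]
lemma al_zero : al ι (0 : A) = 0 := by unfold al; rw [map_zero, map_zero]
lemma al_pow (a : A) (n : ℕ) : al ι (a ^ n) = al ι a ^ n := by unfold al; rw [map_pow, map_pow]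
lemma al_nat (n : ℕ) : al ι (n : A) = n := by unfold al; rw [map_natCast, map_natCast]

lemma xinv (u : ι → ℤ) : (xP u : Polynomial (LP ι A)) * xP (-u) = 1 := by
  rw [← xP_add, add_neg_cancel, xP_zero]

variable [Fintype ι] [DecidableEq ι]

/-- the exponents of the scaling -/
def om (o : ι) : ι → ℕ := fun i => if i = o then 0 else 1

lemma om_sum_single (o : ι) (E : ℕ) : ∑ i, om o i * (Finsupp.single o E : ι →₀ ℕ) i = 0 := by
  apply sum_eq_zero
  intro i _
  by_cases hi : i = o
  · simp [om, hi]
  · rw [Finsupp.single_eq_of_ne hi, mul_zero]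

omit [Fintype ι] in
lemma zexp_single (o : ι) (E : ℕ) : zexp (Finsupp.single o E) = Pi.single o (E : ℤ) := by
  funext i
  unfold zexp
  by_cases hi : i = o
  · subst hi
    rw [Finsupp.single_eq_same, Pi.single_eq_same]
  · rw [Finsupp.single_eq_of_ne hi, Pi.single_eq_of_ne hi]
    rfl

lemma om_pos (o : ι) {E : ℕ} {u : ι →₀ ℕ} (hu : ∑ i, u i = E) (hne : u ≠ Finsupp.single o E) :
    1 ≤ ∑ i, om o i * u i := by
  by_contra hcon
  have h5 : ∑ i, om o i * u i = 0 := by omega
  rw [sum_eq_zero_iff] at h5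
  apply hne
  have h6 : ∀ i, i ≠ o → u i = 0 := by
    intro i hi
    have := h5 i (mem_univ i)
    simpa [om, hi] using this
  ext i
  by_cases hi : i = o
  · subst hi
    rw [Finsupp.single_eq_same, ← hu, sum_eq_single i]
    · intro j _ hj
      exact h6 j hj
    · intro hh
      exact absurd (mem_univ i) hh
  · rw [Finsupp.single_eq_of_ne hi, h6 i hi]

/-- the image of `r` -/
lemma im_r (o : ι) (E N : ℕ) (c γ : A) (r : MvPolynomial ι A) (hrE : ∀ u ∈ r.support, ∑ i, u i = E)
    (hrc : MvPolynomial.coeff (Finsupp.single o E) r = c) : ∃ y1 : Polynomial (LP ι A),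
    toP (scal (om o) γ N (MvPolynomial.map Polynomial.C r)) = al ι c * xP (Pi.single o (E : ℤ)) + Polynomial.X * y1 := by
  classical
  obtain ⟨f, hf⟩ : ∃ f : (ι →₀ ℕ) → Polynomial (LP ι A), f = fun u => Polynomial.X ^ (∑ i, om o i * u i) *
    (al ι (r.coeff u) * xP (zexp u)) := ⟨_, rfl⟩
  have h1 : MvPolynomial.map Polynomial.C r = ∑ u ∈ r.support, MvPolynomial.monomial u (Polynomial.C (r.coeff u)) := by
    conv_lhs => rw [r.as_sum]
    rw [map_sum]
    exact sum_congr rfl fun u _ => by rw [MvPolynomial.map_monomial]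
  have h2 : toP (scal (om o) γ N (MvPolynomial.map Polynomial.C r)) = ∑ u ∈ r.support, f u := by
    rw [h1, map_sum, map_sum, hf]
    exact sum_congr rfl fun u _ => sc_monomial (om o) γ N u _
  have h3 : ∑ u ∈ r.support, f u = f (Finsupp.single o E) + ∑ u ∈ r.support.erase (Finsupp.single o E), f u := by
    by_cases hs : Finsupp.single o E ∈ r.support
    · exact (add_sum_erase _ f hs).symm
    · rw [erase_eq_of_notMem hs]
      have : f (Finsupp.single o E) = 0 := by
        rw [hf]
        show _ * (al ι (r.coeff (Finsupp.single o E)) * _) = 0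
        rw [MvPolynomial.notMem_support_iff.1 hs, al_zero, zero_mul, mul_zero]
      rw [this, zero_add]
  have h4 : f (Finsupp.single o E) = al ι c * xP (Pi.single o (E : ℤ)) := by
    rw [hf]
    show Polynomial.X ^ (∑ i, om o i * (Finsupp.single o E : ι →₀ ℕ) i) * (al ι (r.coeff (Finsupp.single o E)) *
      xP (zexp (Finsupp.single o E))) = _
    rw [om_sum_single, pow_zero, one_mul, hrc, zexp_single]
  refine ⟨∑ u ∈ r.support.erase (Finsupp.single o E), Polynomial.X ^ ((∑ i, om o i * u i) - 1) *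
        (al ι (r.coeff u) * xP (zexp u)), ?_⟩
  have h5 : ∑ u ∈ r.support.erase (Finsupp.single o E), f u = Polynomial.X *
      ∑ u ∈ r.support.erase (Finsupp.single o E), Polynomial.X ^ ((∑ i, om o i * u i) - 1) *
        (al ι (r.coeff u) * xP (zexp u)) := by
    rw [mul_sum]
    refine sum_congr rfl fun u hu => ?_
    rw [mem_erase] at hu
    obtain ⟨t, ht⟩ := Nat.exists_eq_add_of_le (om_pos o (hrE u hu.2) hu.1)
    rw [hf]
    show Polynomial.X ^ (∑ i, om o i * u i) * (al ι (r.coeff u) * xP (zexp u)) = _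
    rw [ht, Nat.add_sub_cancel_left, pow_add, pow_one, mul_assoc]
  rw [h2, h3, h4, h5]

/-- the image of the product of the coordinates -/
lemma im_prod (o : ι) (N : ℕ) (γ : A) :
    toP (scal (om o) γ N (MvPolynomial.map Polynomial.C (∏ i ∈ univ.erase o, (MvPolynomial.X i : MvPolynomial ι A)))) =
      Polynomial.X ^ (Fintype.card ι - 1) * (xP (fun i => if i = o then 0 else 1) : Polynomial (LP ι A)) := by
  classical
  have h1 : MvPolynomial.map Polynomial.C (∏ i ∈ univ.erase o, (MvPolynomial.X i : MvPolynomial ι A)) =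
      MvPolynomial.monomial (Finsupp.equivFunOnFinite.symm (om o)) (Polynomial.C 1) := by
    rw [map_prod, monomial_eq', map_one, map_one, one_mul, ← mul_prod_erase univ _ (mem_univ o)]
    have h2 : (Finsupp.equivFunOnFinite.symm (om o)) o = 0 := by simp [om]
    rw [h2, pow_zero, one_mul]
    refine prod_congr rfl fun i hi => ?_
    have h3 : (Finsupp.equivFunOnFinite.symm (om o)) i = 1 := by simp [om, (mem_erase.1 hi).1]
    rw [h3, pow_one, MvPolynomial.map_X]
  have h2 : ∀ i, om o i * (Finsupp.equivFunOnFinite.symm (om o)) i = if i = o then 0 else 1 := by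
    intro i
    by_cases hi : i = o <;> simp [om, hi]
  have h3 : ∑ i, om o i * (Finsupp.equivFunOnFinite.symm (om o)) i = Fintype.card ι - 1 := by
    rw [sum_congr rfl fun i _ => h2 i, ← sum_erase_add univ _ (mem_univ o), if_pos rfl, add_zero,
      sum_congr rfl fun i hi => if_neg (mem_erase.1 hi).1, sum_const, smul_eq_mul, mul_one,
      card_erase_of_mem (mem_univ o), card_univ]
  have h4 : zexp (Finsupp.equivFunOnFinite.symm (om o)) = fun i => if i = o then 0 else 1 := by
    funext i
    unfold zexp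
    by_cases hi : i = o <;> simp [om, hi]
  rw [h1, sc_monomial, map_one, map_one, one_mul, h3, h4]

lemma ch_g (o : ι) (N : ℕ) (γ : A) (M : Matrix ι ι A) (g : MvPolynomial ι (Polynomial A)) :
    chP (om o) γ N M (MvPolynomial.C Polynomial.X * g) = al ι γ * Polynomial.X ^ N * chP (om o) γ N M g := by
  have h1 : chP (om o) γ N M (MvPolynomial.C Polynomial.X) = al ι γ * Polynomial.X ^ N := by
    unfold chP
    rw [RingHom.comp_apply, RingHom.comp_apply, lin_C, scal_C, toP_C, Polynomial.X_comp, Polynomial.map_mul,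
      Polynomial.map_pow, Polynomial.map_X, Polynomial.map_C]
    rfl
  rw [map_mul, h1]

end

/-- the algebra -/
lemma alg {B : Type} [CommRing B] (a x a' p p' q0 y1 S : B) (ha : a * a' = 1) (hp : p * p' = 1) :
    S * q0 * (a * p + x * y1) = S * (a * (q0 * p)) * (1 + x * (a' * p' * y1)) := by
  have e2 : a * p * (1 + x * (a' * p' * y1)) = a * p + (a * a') * (p * p') * (x * y1) := by ring
  have e3 : a * p + x * y1 = a * p * (1 + x * (a' * p' * y1)) := by rw [e2, ha, hp]; ring
  rw [e3]
  ring

lemma alg2 {B : Type} [CommRing B] (x S q F F' G Z N' : B) (hF : F * F' = 1) :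
    S * F * (1 + x * q) + G * (S * (x * N')) * Z = S * (F * (1 + x * (q + G * N' * F' * Z))) := by
  have e : S * (F * (1 + x * (q + G * N' * F' * Z))) = S * F * (1 + x * q) + (F * F') * (G * (S * (x * N')) * Z) := by
    ring
  rw [e, hF, one_mul]

theorem norm : S_Norm := by
  classical
  intro ι A _ _ _ o m E N c c' μ γ M h r g hcc hμ hlin hrE hrc hN
  have hal1 : al ι c * al ι c' = 1 := by rw [← al_mul, hcc, al_one]
  obtain ⟨y1, hy1⟩ := im_r o E N c γ r hrE hrc
  have hprod := im_prod (A := A) o N γ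
  have hh : chP (om o) γ N M (MvPolynomial.map Polynomial.C h) = Polynomial.X ^ (Fintype.card ι - 1) *
      xP (fun i => if i = o then 0 else 1) * (al ι c * xP (Pi.single o (E : ℤ)) + Polynomial.X * y1) := by
    unfold chP
    rw [RingHom.comp_apply, RingHom.comp_apply, lin_map, hlin, map_mul, map_mul, map_mul, hprod, hy1]
  have hg := ch_g o N γ M g
  obtain ⟨ν, hν⟩ : ∃ ν : ι → ℤ, ν = fun i => if i = o then (E : ℤ) else 1 := ⟨_, rfl⟩
  have hxν : (xP (fun i => if i = o then 0 else 1) : Polynomial (LP ι A)) * xP (Pi.single o (E : ℤ)) = xP ν := by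
    rw [← xP_add]
    have : (fun i => if i = o then 0 else 1) + Pi.single o (E : ℤ) = ν := by
      funext i
      rw [hν, Pi.add_apply]
      by_cases hi : i = o
      · subst hi
        simp
      · simp [hi]
    rw [this]
  obtain ⟨z, hz⟩ : ∃ z : Polynomial (LP ι A), z = al ι c' * xP (-(Pi.single o (E : ℤ))) * y1 := ⟨_, rfl⟩
  have hh2 : chP (om o) γ N M (MvPolynomial.map Polynomial.C h) = Polynomial.X ^ (Fintype.card ι - 1) *
      (al ι c * xP ν) * (1 + Polynomial.X * z) := by
    rw [hh, ← hxν, hz]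
    exact alg _ _ _ _ _ _ _ _ hal1 (xinv _)
  obtain ⟨N', hN'⟩ := Nat.exists_eq_add_of_le hN
  obtain ⟨q, hq⟩ : ∃ q : Polynomial (LP ι A), (1 + Polynomial.X * z) ^ m = 1 + Polynomial.X * q := by
    obtain ⟨q, hq⟩ := sub_dvd_pow_sub_pow (1 + Polynomial.X * z) 1 m
    refine ⟨z * q, ?_⟩
    rw [one_pow, add_sub_cancel_left] at hq
    have : (1 + Polynomial.X * z) ^ m = 1 + ((1 + Polynomial.X * z) ^ m - 1) := by ring
    rw [this, hq, mul_assoc]
  have hinv : (al ι c * xP ν) ^ m * (al ι c' * xP (-ν)) ^ m = 1 := by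
    rw [← mul_pow]
    have : (al ι c * xP ν) * (al ι c' * xP (-ν)) = (al ι c * al ι c') * (xP ν * xP (-ν)) := by ring
    rw [this, hal1, xinv, one_mul, one_pow]
  obtain ⟨T, hT⟩ : ∃ T : Polynomial (LP ι A), T = q + al ι γ * Polynomial.X ^ N' * (al ι c' * xP (-ν)) ^ m *
    chP (om o) γ N M g := ⟨_, rfl⟩
  have hmain : chP (om o) γ N M (MvPolynomial.map Polynomial.C h ^ m + MvPolynomial.C Polynomial.X * g) =
      Polynomial.X ^ (m * (Fintype.card ι - 1)) * ((al ι c * xP ν) ^ m * (1 + Polynomial.X * T)) := by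
    have e1 : (Polynomial.X : Polynomial (LP ι A)) ^ N = Polynomial.X ^ (m * (Fintype.card ι - 1)) *
        (Polynomial.X * Polynomial.X ^ N') := by
      rw [hN', pow_add, pow_succ, mul_assoc]
    rw [map_add, map_pow, hh2, hg, mul_pow, mul_pow, hq, hT, ← pow_mul, mul_comm (Fintype.card ι - 1) m, e1]
    exact alg2 _ _ _ _ _ _ _ _ hinv
  have hμ' : ((m : Polynomial (LP ι A))) ^ 2 * al ι μ = 1 := by
    rw [← al_nat (A := A), ← al_pow, ← al_mul, hμ, al_one]
  refine ⟨al ι μ * (Polynomial.X * T), ?_, ?_⟩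
  · unfold al
    rw [Polynomial.coeff_C_mul, Polynomial.coeff_X_mul_zero, mul_zero]
  · have h1 := congrArg (fun P : Polynomial (LP ι A) => (P : PowerSeries (LP ι A))) hmain
    have h1' : chart (om o) γ N M (MvPolynomial.map Polynomial.C h ^ m + MvPolynomial.C Polynomial.X * g) =
        ((Polynomial.X ^ (m * (Fintype.card ι - 1)) * ((al ι c * xP ν) ^ m * (1 + Polynomial.X * T)) :
          Polynomial (LP ι A)) : PowerSeries (LP ι A)) := by
      rw [← coe_chP]
      exact h1
    have h2 : (fun i => if i = o then 0 else 1) = om o := rfl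
    rw [h2, h1']
    have e3 : (al ι c * xP ν) ^ m = al ι (c ^ m) * xP (fun i => if i = o then (m * E : ℤ) else m) := by
      rw [mul_pow, xP_pow, al_pow]
      have : m • ν = fun i => if i = o then (m * E : ℤ) else m := by
        funext i
        rw [hν, Pi.smul_apply]
        by_cases hi : i = o <;> simp [hi]
      rw [this]
    have e4 : (1 + Polynomial.X * T : Polynomial (LP ι A)) = 1 + (m : Polynomial (LP ι A)) ^ 2 *
        (al ι μ * (Polynomial.X * T)) := by
      rw [← mul_assoc, hμ', one_mul]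
    have e5 : ((al ι (c ^ m) : Polynomial (LP ι A)) : PowerSeries (LP ι A)) = cst (PowerSeries.C (c ^ m)) := by
      rw [cst_C]
      unfold al
      rw [Polynomial.coe_C]
      rfl
    have e6 : ((m : Polynomial (LP ι A)) : PowerSeries (LP ι A)) = (m : PowerSeries (LP ι A)) := by
      have := map_natCast (Polynomial.coeToPowerSeries.ringHom (R := LP ι A)) m
      rw [Polynomial.coeToPowerSeries.ringHom_apply] at this
      exact this
    have e7 : ((1 + Polynomial.X * T : Polynomial (LP ι A)) : PowerSeries (LP ι A)) =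
        1 + (m : PowerSeries (LP ι A)) ^ 2 * ((al ι μ * (Polynomial.X * T) : Polynomial (LP ι A)) : PowerSeries (LP ι A)) := by
      conv_lhs => rw [e4]
      rw [Polynomial.coe_add, Polynomial.coe_one, Polynomial.coe_mul, Polynomial.coe_pow, e6]
    rw [e3, Polynomial.coe_mul, Polynomial.coe_pow, Polynomial.coe_X, Polynomial.coe_mul, Polynomial.coe_mul, coe_xP,
      e5, e7]

end Pool.Agent.Q102.AP
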